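import Mathlib
import Pool.Agent.Helper82.OS.Defs
import Pool.Agent.Helper82.OS.PPd
set_option autoImplicit false
open Matrix MeasureTheory Set Metric Filter Topology
open scoped ENNReal ContDiff

namespace Pool.Agent.H248.UB
open Pool.Agent.Helper82.OS

/-- a two-frame together with a linear isometric complex structure -/
structure Fr {D : ℕ} (a b : E D) (J : E D →L[ℝ] E D) : Prop where
  na : ‖a‖ = 1
  nb : ‖b‖ = 1
  ab : inner ℝ a b = 0
  sk : ∀ y : E D, inner ℝ (J y) y = 0
  iso : ∀ y : E D, ‖J y‖ = ‖y‖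
  Ja : J a = b
  Jb : J b = -a

/-- projection off `a` -/
noncomputable def pa {D : ℕ} (a u : E D) : E D := u - (inner ℝ a u : ℝ) • a

/-- projection off `a` and `b` -/
noncomputable def pab {D : ℕ} (a b u : E D) : E D :=
  u - (inner ℝ a u : ℝ) • a - (inner ℝ b u : ℝ) • b

/-- cut-off: zero as soon as `‖pa a u‖ ≥ 1`, one at `pa a u = 0` -/
noncomputable def chi {D : ℕ} (a u : E D) : ℝ := Real.smoothTransition (1 - ‖pa a u‖ ^ 2)

/-- the desingularised dipole -/
noncomputable def Phi {D : ℕ} (a b : E D) (J : E D →L[ℝ] E D) (u : E D) : E D :=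
  (‖pab a b u‖ ^ 2 - (inner ℝ b u : ℝ) ^ 2 - chi a u) • b
    - (2 * (inner ℝ b u : ℝ)) • pab a b u + chi a u • J (pab a b u)

/-- its normalisation -/
noncomputable def Psi {D : ℕ} (a b : E D) (J : E D →L[ℝ] E D) (u : E D) : E D :=
  ‖Phi a b J u‖⁻¹ • Phi a b J u

/-- parallel transport from `-a` to `x` -/
noncomputable def TX {D : ℕ} (a x u : E D) : E D :=
  u - ((inner ℝ u x : ℝ) / (1 - (inner ℝ a x : ℝ))) • (x - a)

/-- cut-off in the first coordinate -/
noncomputable def tht (s : ℝ) : ℝ := Real.smoothTransition (s + 1 / 2)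

/-- the field before rescaling -/
noncomputable def GG {D : ℕ} (a b : E D) (J : E D →L[ℝ] E D) (p : E D × E D) : E D :=
  tht (inner ℝ a p.1) • PP a b p.1 + (1 - tht (inner ℝ a p.1)) • TX a p.1 (Psi a b J p.2)

/-- the approximating field -/
noncomputable def Vf {D : ℕ} (a b : E D) (J : E D →L[ℝ] E D) (ε : ℝ) (x : E D) : E D :=
  GG a b J (x, ε⁻¹ • pa a x)

end Pool.Agent.H248.UB
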