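import Mathlib
import Pool.Agent.H248.UB.Defs
set_option autoImplicit false
open Matrix MeasureTheory Set Metric Filter Topology
open scoped ENNReal ContDiff

namespace Pool.Agent.H248.UB
open Pool.Agent.Helper82.OS


theorem cap_meas (D : ℕ) (hD : 1 ≤ D) : ∃ C : ℝ, 0 ≤ C ∧ ∀ ε : ℝ, 0 < ε → ε < 1 →
    (sg (D + 1)) {x : sphere (0 : E (D + 1)) 1 |
      ‖pa (EuclideanSpace.single (0 : Fin (D + 1)) (1 : ℝ)) (x : E (D + 1))‖ ≤ ε}
      ≤ ENNReal.ofReal (C * ε ^ D) := by
  set a : E (D + 1) := EuclideanSpace.single (0 : Fin (D + 1)) (1 : ℝ) with ha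
  refine ⟨(D + 1) * (2 * 2 ^ D), by positivity, fun ε hε hε1 => ?_⟩
  set c : Fin (D + 1) → ℝ := fun i => if i = 0 then 1 else ε with hc
  set S : Set (sphere (0 : E (D + 1)) 1) := {x | ‖pa a (x : E (D + 1))‖ ≤ ε} with hS
  have hSc : IsClosed S := by
    refine isClosed_le ?_ continuous_const
    unfold pa
    fun_prop
  have hpai : ∀ (x : E (D + 1)) (i : Fin (D + 1)), i ≠ 0 → (pa a x) i = x i := by
    intro x i hi
    unfold pa
    rw [ha]
    simp [hi]
  have hxi' : ∀ (x : sphere (0 : E (D + 1)) 1), x ∈ S → ∀ i, |(x : E (D + 1)) i| ≤ c i := by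
    intro x hx i
    have hxn : ‖(x : E (D + 1))‖ = 1 := by
      have := x.2
      rw [mem_sphere, dist_zero_right] at this
      exact this
    by_cases hi : i = 0
    · rw [hc]
      simp only [hi, if_true]
      rw [← Real.norm_eq_abs]
      exact (PiLp.norm_apply_le _ _).trans hxn.le
    · rw [hc]
      simp only [hi, if_false]
      rw [← hpai _ i hi, ← Real.norm_eq_abs]
      exact (PiLp.norm_apply_le _ _).trans hx
  open scoped Pointwise in
  have hsub : Ioo (0 : ℝ) 1 • ((fun x : sphere (0 : E (D + 1)) 1 => (x : E (D + 1))) '' S) ⊆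
      (fun z : E (D + 1) => (WithLp.ofLp z : Fin (D + 1) → ℝ)) ⁻¹'
        Set.Icc (fun i => - c i) c := by
    rintro _ ⟨t, ht, _, ⟨x, hx, rfl⟩, rfl⟩
    have hz : ∀ i, |(t • (x : E (D + 1))) i| ≤ c i := by
      intro i
      rw [PiLp.smul_apply, smul_eq_mul, abs_mul, abs_of_pos ht.1]
      calc t * |(x : E (D + 1)) i| ≤ 1 * |(x : E (D + 1)) i| :=
            mul_le_mul_of_nonneg_right ht.2.le (abs_nonneg _)
        _ ≤ c i := by rw [one_mul]; exact hxi' x hx i
    rw [mem_preimage, Set.mem_Icc]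
    exact ⟨fun i => (abs_le.1 (hz i)).1, fun i => (abs_le.1 (hz i)).2⟩
  have hvol : volume ((fun z : E (D + 1) => (WithLp.ofLp z : Fin (D + 1) → ℝ)) ⁻¹'
        Set.Icc (fun i => - c i) c) = ENNReal.ofReal (2 * (2 * ε) ^ D) := by
    rw [(PiLp.volume_preserving_ofLp (Fin (D + 1))).measure_preimage
      measurableSet_Icc.nullMeasurableSet, Real.volume_Icc_pi, Fin.prod_univ_succ,
      ENNReal.ofReal_mul (by norm_num), ENNReal.ofReal_pow (by positivity)]
    congr 1
    · rw [hc]; norm_num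
    · rw [Finset.prod_congr rfl (g := fun _ => ENNReal.ofReal (2 * ε)) (fun i _ => ?_),
        Finset.prod_const, Finset.card_univ, Fintype.card_fin]
      rw [hc]
      simp only [Fin.succ_ne_zero, if_false]
      congr 1
      ring
  rw [Measure.toSphere_apply' _ hSc.measurableSet]
  have hfin : (Module.finrank ℝ (E (D + 1)) : ℝ≥0∞) * ENNReal.ofReal (2 * (2 * ε) ^ D) =
      ENNReal.ofReal ((D + 1) * (2 * 2 ^ D) * ε ^ D) := by
    rw [finrank_euclideanSpace_fin, ← ENNReal.ofReal_natCast, ← ENNReal.ofReal_mul (by positivity)]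
    congr 1
    push_cast
    rw [mul_pow]
    ring
  rw [← hfin]
  refine mul_le_mul' le_rfl ?_
  rw [← hvol]
  exact measure_mono hsub

end Pool.Agent.H248.UB
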