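import Mathlib
import Pool.Agent.H248.UB.Defs
import Pool.Agent.Helper82.OS.amgm
set_option autoImplicit false
open Matrix MeasureTheory Set Metric Filter Topology
open scoped ENNReal ContDiff

namespace Pool.Agent.H248.UB
open Pool.Agent.Helper82.OS



theorem det_bd {m : ℕ} (A : Matrix (Fin (2 * m + 2)) (Fin (2 * m + 2)) ℝ) (hA : A.PosSemidef)
    (x v : Fin (2 * m + 2) → ℝ) (hx : x ⬝ᵥ x = 1) (hv : v ⬝ᵥ v = 1) (hxv : x ⬝ᵥ v = 0)
    (hAx : A *ᵥ x = 0) (hAv : A *ᵥ v = 0) :
    (1 + A).det ≤ 9 * (1 + 3 * A.trace) ^ (2 * m) := by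
  set t := A.trace with ht
  have ht0 : 0 ≤ t := hA.trace_nonneg
  have hdet : ∀ y : Fin (2 * m + 2) → ℝ, y ⬝ᵥ y = 1 → (1 + t • vecMulVec y y).det = 1 + t := by
    intro y hy
    have e : t • vecMulVec y y = replicateCol Unit (t • y) * replicateRow Unit y := by
      rw [← vecMulVec_eq]
      ext i j
      simp [vecMulVec_apply, mul_assoc]
    rw [e, det_one_add_replicateCol_mul_replicateRow, dotProduct_smul, hy]
    simp
  have hAX : A * vecMulVec x x = 0 := by
    rw [mul_vecMulVec, hAx]; ext i j; simp [vecMulVec_apply]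
  have hAV : A * vecMulVec v v = 0 := by
    rw [mul_vecMulVec, hAv]; ext i j; simp [vecMulVec_apply]
  have hXV : vecMulVec x x * vecMulVec v v = 0 := by
    rw [vecMulVec_mul_vecMulVec, hxv]; ext i j; simp [vecMulVec_apply]
  have hM : (1 + A) * ((1 + t • vecMulVec x x) * (1 + t • vecMulVec v v))
      = 1 + A + (t • vecMulVec x x + t • vecMulVec v v) := by
    have e1 : (1 + t • vecMulVec x x) * (1 + t • vecMulVec v v)
        = 1 + t • vecMulVec v v + t • vecMulVec x x := by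
      rw [add_mul, one_mul, mul_add, mul_one, smul_mul_assoc, mul_smul_comm, hXV]
      simp
    rw [e1, add_mul, one_mul, mul_add, mul_add, mul_one, mul_smul_comm, mul_smul_comm, hAX, hAV]
    simp
    abel
  have hdM : (1 + A + (t • vecMulVec x x + t • vecMulVec v v)).det = (1 + A).det * ((1 + t) * (1 + t)) := by
    rw [← hM, det_mul, det_mul, hdet x hx, hdet v hv]
  have hpsd : (1 + A + (t • vecMulVec x x + t • vecMulVec v v)).PosSemidef := by
    have p1 : ∀ y : Fin (2 * m + 2) → ℝ, (t • vecMulVec y y).PosSemidef := by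
      intro y
      have := posSemidef_vecMulVec_self_star y
      have h2 : star y = y := by ext i; simp
      rw [h2] at this
      exact this.smul ht0
    exact (PosSemidef.one.add hA).add ((p1 x).add (p1 v))
  have htr : (1 + A + (t • vecMulVec x x + t • vecMulVec v v)).trace = (2 * m + 2 : ℝ) + 3 * t := by
    rw [trace_add, trace_add, trace_add, trace_smul, trace_smul, trace_vecMulVec, trace_vecMulVec,
      hx, hv, trace_one, ← ht]
    simp
    ring
  obtain ⟨h1, h2⟩ := amgm_psd_amgmx (by omega) _ hpsd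
  rw [htr, hdM] at h1
  rw [htr] at h2
  have hN : (0:ℝ) < ((2 * m + 2 : ℕ) : ℝ) := by positivity
  have h3 : ((2 * m + 2 : ℝ) + 3 * t) / ((2 * m + 2 : ℕ) : ℝ) ≤ 1 + 3 * t := by
    rw [div_le_iff₀ hN]
    push_cast
    have hm0 : (0:ℝ) ≤ m := Nat.cast_nonneg m
    nlinarith [mul_nonneg hm0 ht0]
  have h4 : (((2 * m + 2 : ℝ) + 3 * t) / ((2 * m + 2 : ℕ) : ℝ)) ^ (2 * m + 2) ≤ (1 + 3 * t) ^ (2 * m + 2) :=
    pow_le_pow_left₀ h2 h3 _
  have h5 : (1 + 3 * t) ^ (2 * m + 2) ≤ (1 + 3 * t) ^ (2 * m) * (9 * ((1 + t) * (1 + t))) := by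
    rw [pow_add]
    apply mul_le_mul_of_nonneg_left _ (by positivity)
    nlinarith
  have h6 : (1 + A).det * ((1 + t) * (1 + t)) ≤ (9 * (1 + 3 * t) ^ (2 * m)) * ((1 + t) * (1 + t)) := by
    calc _ ≤ _ := h1
      _ ≤ _ := h4
      _ ≤ _ := h5
      _ = _ := by ring
  exact le_of_mul_le_mul_right h6 (by positivity)

end Pool.Agent.H248.UB
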