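import Mathlib
import Pool.Agent.H248.UB.Defs
import Pool.Agent.H248.UB.DetBd
set_option autoImplicit false
open Matrix MeasureTheory Set Metric Filter Topology
open scoped ENNReal ContDiff

namespace Pool.Agent.H248.UB
open Pool.Agent.Helper82.OS



theorem ub_densbd_mat {D : ℕ} (L : E D →L[ℝ] E D) (y : E D) : mat L *ᵥ y.ofLp = (L y).ofLp := by
  have hy : y = ∑ j, y.ofLp j • (EuclideanSpace.single j (1:ℝ) : E D) := by
    ext i
    simp [Finset.sum_apply, Pi.single_apply]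
  funext i
  conv_rhs => rw [hy]
  rw [map_sum]
  simp [mat, Matrix.mulVec, dotProduct, mul_comm]

theorem ub_densbd_inner {D : ℕ} (x y : E D) : inner ℝ x y = x.ofLp ⬝ᵥ y.ofLp := by
  rw [EuclideanSpace.inner_eq_star_dotProduct, dotProduct_comm]
  simp

/-- projection -/
noncomputable def ub_densbd_pr {D : ℕ} (x y : E D) : E D := y - (inner ℝ x y : ℝ) • x

theorem ub_densbd_pi {D : ℕ} (x y : E D) :
    (1 - vecMulVec x.ofLp x.ofLp) *ᵥ y.ofLp = (ub_densbd_pr x y).ofLp := by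
  rw [Matrix.sub_mulVec, Matrix.one_mulVec, Matrix.vecMulVec_mulVec, ub_densbd_pr, ub_densbd_inner]
  funext i
  simp [mul_comm]

theorem ub_densbd_B {D : ℕ} (V : E D → E D) (x y : E D) :
    Bm V x *ᵥ y.ofLp = (ub_densbd_pr x (fderiv ℝ V x (ub_densbd_pr x y))).ofLp := by
  unfold Bm
  rw [← Matrix.mulVec_mulVec, ub_densbd_pi, ← Matrix.mulVec_mulVec, ub_densbd_mat, ub_densbd_pi]

theorem ub_densbd_pr_norm {D : ℕ} (x y : E D) (hx : ‖x‖ = 1) : ‖ub_densbd_pr x y‖ ≤ ‖y‖ := by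
  have h : ‖ub_densbd_pr x y‖ ^ 2 = ‖y‖ ^ 2 - (inner ℝ x y : ℝ) ^ 2 := by
    unfold ub_densbd_pr
    rw [norm_sub_sq_real, inner_smul_right, norm_smul, hx, real_inner_comm y x, mul_one,
      Real.norm_eq_abs, sq_abs]
    ring
  have h2 : ‖ub_densbd_pr x y‖ ^ 2 ≤ ‖y‖ ^ 2 := by
    rw [h]; nlinarith [sq_nonneg (inner ℝ x y : ℝ)]
  exact (sq_le_sq₀ (norm_nonneg _) (norm_nonneg _)).1 h2

theorem ub_densbd_perp {D : ℕ} (x y : E D) (hx : ‖x‖ = 1) : inner ℝ x (ub_densbd_pr x y) = 0 := by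
  unfold ub_densbd_pr
  rw [inner_sub_right, inner_smul_right, real_inner_self_eq_norm_sq, hx]
  ring

theorem ub_densbd_der {D : ℕ} (V : E D → E D) (hV : UT V) (x u : E D) (hx : ‖x‖ = 1)
    (hu : ‖u‖ = 1) (hxu : inner ℝ x u = 0) : inner ℝ (V x) (fderiv ℝ V x u) = 0 := by
  have hγ : HasDerivAt (fun t : ℝ => Real.cos t • x + Real.sin t • u) u 0 := by
    have h1 := ((Real.hasDerivAt_cos 0).smul_const x).fun_add ((Real.hasDerivAt_sin 0).smul_const u)
    simpa using h1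
  have hd : DifferentiableAt ℝ V x := hV.sm.differentiable (by simp) x
  have h0 : (fun t : ℝ => Real.cos t • x + Real.sin t • u) 0 = x := by simp
  have hV' : HasDerivAt (fun t : ℝ => V (Real.cos t • x + Real.sin t • u)) (fderiv ℝ V x u) 0 := by
    have h2 : HasFDerivAt V (fderiv ℝ V x) ((fun t : ℝ => Real.cos t • x + Real.sin t • u) 0) := by
      rw [h0]; exact hd.hasFDerivAt
    exact h2.comp_hasDerivAt 0 hγ
  have h3 := hV'.inner ℝ hV'
  have hconst : (fun t : ℝ => (inner ℝ (V (Real.cos t • x + Real.sin t • u))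
      (V (Real.cos t • x + Real.sin t • u)) : ℝ)) = fun _ => 1 := by
    funext t
    rw [real_inner_self_eq_norm_sq, hV.unit]
    · norm_num
    · have h4 : ‖Real.cos t • x + Real.sin t • u‖ ^ 2 = 1 := by
        rw [norm_add_sq_real, inner_smul_left, inner_smul_right, hxu, norm_smul, norm_smul, hx, hu]
        simp
      have h5 := norm_nonneg (Real.cos t • x + Real.sin t • u)
      nlinarith
  rw [hconst] at h3
  have h6 := h3.unique (hasDerivAt_const (0:ℝ) (1:ℝ))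
  simp only [Real.cos_zero, Real.sin_zero, one_smul, zero_smul, add_zero] at h6
  rw [real_inner_comm (V x) (fderiv ℝ V x u)] at h6
  linarith

theorem ub_densbd_der2 {D : ℕ} (V : E D → E D) (hV : UT V) (x h : E D) (hx : ‖x‖ = 1)
    (hxh : inner ℝ x h = 0) : inner ℝ (V x) (fderiv ℝ V x h) = 0 := by
  by_cases h0 : h = 0
  · rw [h0]; simp
  · have hn : ‖h‖ ≠ 0 := norm_ne_zero_iff.2 h0
    have h1 := ub_densbd_der V hV x (‖h‖⁻¹ • h) hx (by rw [norm_smul, norm_inv, norm_norm, inv_mul_cancel₀ hn])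
      (by rw [inner_smul_right, hxh, mul_zero])
    rw [map_smul, inner_smul_right] at h1
    exact (mul_eq_zero.1 h1).resolve_left (inv_ne_zero hn)

theorem dens_bd {m : ℕ} (V : E (2 * m + 2) → E (2 * m + 2)) (hV : UT V) (x : E (2 * m + 2))
    (hx : ‖x‖ = 1) (K : ℝ) (hK : ‖fderiv ℝ V x‖ ≤ K) :
    dens V x ≤ 3 * (1 + 3 * ((2 * m + 2 : ℕ) : ℝ) * K ^ 2) ^ m := by
  have hK0 : 0 ≤ K := (norm_nonneg _).trans hK
  have hA : (Bm V x * (Bm V x)ᵀ).PosSemidef := by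
    have h2 := Matrix.posSemidef_self_mul_conjTranspose (Bm V x)
    rwa [Matrix.conjTranspose_eq_transpose_of_trivial] at h2
  have hxx : x.ofLp ⬝ᵥ x.ofLp = 1 := by
    rw [← ub_densbd_inner, real_inner_self_eq_norm_sq, hx]; norm_num
  have hvv : (V x).ofLp ⬝ᵥ (V x).ofLp = 1 := by
    rw [← ub_densbd_inner, real_inner_self_eq_norm_sq, hV.unit x hx]; norm_num
  have hxv : x.ofLp ⬝ᵥ (V x).ofLp = 0 := by
    rw [← ub_densbd_inner, hV.tan x hx]
  have hzero : ∀ v : E (2 * m + 2), (∀ y : E (2*m+2), inner ℝ v (ub_densbd_pr x (fderiv ℝ V x (ub_densbd_pr x y))) = 0) →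
      (Bm V x * (Bm V x)ᵀ) *ᵥ v.ofLp = 0 := by
    intro v hv
    rw [← Matrix.mulVec_mulVec]
    have h1 : (Bm V x)ᵀ *ᵥ v.ofLp = 0 := by
      rw [Matrix.mulVec_transpose]
      have h2 : ∀ y : E (2*m+2), (v.ofLp ᵥ* Bm V x) ⬝ᵥ y.ofLp = 0 := by
        intro y
        rw [← Matrix.dotProduct_mulVec, ub_densbd_B, ← ub_densbd_inner, hv y]
      have h3 := h2 (WithLp.toLp 2 (v.ofLp ᵥ* Bm V x))
      exact dotProduct_self_eq_zero.1 h3
    rw [h1, Matrix.mulVec_zero]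
  have hprsym : ∀ a b : E (2*m+2), inner ℝ a (ub_densbd_pr x b) = inner ℝ (ub_densbd_pr x a) b := by
    intro a b
    unfold ub_densbd_pr
    rw [inner_sub_right, inner_sub_left, inner_smul_right, inner_smul_left, real_inner_comm x a]
    simp
    ring
  have hAx : (Bm V x * (Bm V x)ᵀ) *ᵥ x.ofLp = 0 := by
    apply hzero
    intro y
    exact ub_densbd_perp x _ hx
  have hAv : (Bm V x * (Bm V x)ᵀ) *ᵥ (V x).ofLp = 0 := by
    apply hzero
    intro y
    rw [hprsym]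
    have h1 : ub_densbd_pr x (V x) = V x := by
      unfold ub_densbd_pr
      rw [hV.tan x hx]; simp
    rw [h1]
    exact ub_densbd_der2 V hV x _ hx (ub_densbd_perp x y hx)
  have hdet := det_bd _ hA x.ofLp (V x).ofLp hxx hvv hxv hAx hAv
  have htr : (Bm V x * (Bm V x)ᵀ).trace ≤ ((2 * m + 2 : ℕ) : ℝ) * K ^ 2 := by
    have h1 : (Bm V x * (Bm V x)ᵀ).trace = ∑ j, ∑ i, (Bm V x i j) ^ 2 := by
      rw [Matrix.trace, Finset.sum_comm]
      refine Finset.sum_congr rfl fun i _ => ?_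
      rw [Matrix.diag_apply, Matrix.mul_apply]
      refine Finset.sum_congr rfl fun j _ => ?_
      rw [Matrix.transpose_apply]; ring
    have h2 : ∀ j, ∑ i, (Bm V x i j) ^ 2 ≤ K ^ 2 := by
      intro j
      have h3 := ub_densbd_B V x (EuclideanSpace.single j (1:ℝ))
      have h4 : ∀ i, Bm V x i j = (ub_densbd_pr x (fderiv ℝ V x (ub_densbd_pr x (EuclideanSpace.single j (1:ℝ))))) i := by
        intro i
        have h5 := congrFun h3 i
        rw [← h5]
        simp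
      have h6 : ∑ i, (Bm V x i j) ^ 2 = ‖ub_densbd_pr x (fderiv ℝ V x (ub_densbd_pr x (EuclideanSpace.single j (1:ℝ))))‖ ^ 2 := by
        rw [EuclideanSpace.real_norm_sq_eq]
        exact Finset.sum_congr rfl fun i _ => by rw [h4 i]
      rw [h6]
      have h7 : ‖ub_densbd_pr x (fderiv ℝ V x (ub_densbd_pr x (EuclideanSpace.single j (1:ℝ))))‖ ≤ K := by
        refine (ub_densbd_pr_norm x _ hx).trans ?_
        refine (ContinuousLinearMap.le_opNorm _ _).trans ?_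
        have h8 : ‖ub_densbd_pr x (EuclideanSpace.single j (1:ℝ))‖ ≤ 1 := by
          refine (ub_densbd_pr_norm x _ hx).trans ?_
          simp
        calc ‖fderiv ℝ V x‖ * ‖ub_densbd_pr x (EuclideanSpace.single j (1:ℝ))‖ ≤ K * 1 :=
              mul_le_mul hK h8 (norm_nonneg _) hK0
          _ = K := mul_one K
      exact pow_le_pow_left₀ (norm_nonneg _) h7 2
    rw [h1]
    calc ∑ j, ∑ i, (Bm V x i j) ^ 2 ≤ ∑ _j : Fin (2 * m + 2), K ^ 2 := Finset.sum_le_sum fun j _ => h2 j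
      _ = ((2 * m + 2 : ℕ) : ℝ) * K ^ 2 := by simp
  have htr0 : 0 ≤ (Bm V x * (Bm V x)ᵀ).trace := hA.trace_nonneg
  unfold dens
  rw [Real.sqrt_le_left (by positivity)]
  refine hdet.trans ?_
  have h9 : (1 + 3 * (Bm V x * (Bm V x)ᵀ).trace) ^ (2 * m) ≤ (1 + 3 * ((2 * m + 2 : ℕ) : ℝ) * K ^ 2) ^ (2 * m) := by
    apply pow_le_pow_left₀ (by positivity)
    nlinarith
  calc 9 * (1 + 3 * (Bm V x * (Bm V x)ᵀ).trace) ^ (2 * m)
      ≤ 9 * (1 + 3 * ((2 * m + 2 : ℕ) : ℝ) * K ^ 2) ^ (2 * m) := by linarith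
    _ = (3 * (1 + 3 * ((2 * m + 2 : ℕ) : ℝ) * K ^ 2) ^ m) ^ 2 := by ring

end Pool.Agent.H248.UB
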