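import Mathlib
import Pool.Agent.H248.UB.Defs
set_option autoImplicit false
open Matrix MeasureTheory Set Metric Filter Topology
open scoped ENNReal ContDiff

namespace Pool.Agent.H248.UB
open Pool.Agent.Helper82.OS

theorem ubc_r {D : ℕ} (x : E D) (hx : ‖x‖ = 1) :
    HasFDerivAt (fun y : E D => ‖y‖⁻¹ • y)
      (ContinuousLinearMap.id ℝ (E D) - (innerSL ℝ x).smulRight x) x := by
  have hx0 : x ≠ 0 := by
    intro h
    simp [h] at hx
  have h1 : HasFDerivAt (fun y : E D => ‖y‖ ^ 2) (2 • innerSL ℝ x) x :=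
    (hasStrictFDerivAt_norm_sq x).hasFDerivAt
  have h2 : DifferentiableAt ℝ (fun y : E D => ‖y‖) x := (contDiffAt_norm ℝ hx0 (n := 1)).differentiableAt (by norm_num)
  have h3 := h2.hasFDerivAt
  have h4 := h3.pow 2
  have h5 := h4.unique h1
  have h6 : fderiv ℝ (fun y : E D => ‖y‖) x = innerSL ℝ x := by
    ext v
    have := congrArg (fun L : E D →L[ℝ] ℝ => L v) h5
    simp [hx] at this
    simpa using this
  rw [h6] at h3
  have h7 : HasFDerivAt (fun y : E D => ‖y‖⁻¹) (-(innerSL ℝ x)) x := by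
    have := (hasDerivAt_inv (x := ‖x‖) (by rw [hx]; norm_num)).comp_hasFDerivAt x h3
    refine this.congr_fderiv ?_
    ext v
    simp [hx]
  have h8 := h7.smul (hasFDerivAt_id x)
  refine h8.congr_fderiv ?_
  ext v
  simp [hx, sub_eq_add_neg]

theorem ubc_mat {D : ℕ} (L : E D →L[ℝ] E D) (x : E D) :
    mat L * (1 - vecMulVec x.ofLp x.ofLp)
      = mat (L.comp (ContinuousLinearMap.id ℝ (E D) - (innerSL ℝ x).smulRight x)) := by
  have hmv : ∀ (M : E D →L[ℝ] E D) (y : E D), mat M *ᵥ y.ofLp = (M y).ofLp := by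
    intro M y
    ext i
    have hy : y = ∑ j, y j • (EuclideanSpace.single j (1:ℝ) : E D) := by
      ext k
      simp [Finset.sum_apply, Pi.single_apply]
    conv_rhs => rw [hy]
    simp [mat, Matrix.mulVec, dotProduct, map_sum, mul_comm]
  ext i j
  have h1 := congrFun (hmv (L.comp (ContinuousLinearMap.id ℝ (E D) - (innerSL ℝ x).smulRight x)) (EuclideanSpace.single j 1)) i
  have h2 := congrFun (hmv L ((ContinuousLinearMap.id ℝ (E D) - (innerSL ℝ x).smulRight x) (EuclideanSpace.single j 1))) i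
  have h3 : (mat L * (1 - vecMulVec x.ofLp x.ofLp)) i j
      = (mat L *ᵥ ((ContinuousLinearMap.id ℝ (E D) - (innerSL ℝ x).smulRight x) (EuclideanSpace.single j 1) : E D).ofLp) i := by
    rw [Matrix.mul_apply, Matrix.mulVec, dotProduct]
    refine Finset.sum_congr rfl fun k _ => ?_
    congr 1
    simp [Matrix.one_apply, vecMulVec_apply, EuclideanSpace.inner_single_right, Pi.single_apply, mul_comm]
  rw [h3, h2]
  simp [mat]

theorem dens_congr {D : ℕ} (V P : E D → E D) (x : E D) (hx : ‖x‖ = 1)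
    (hV : DifferentiableAt ℝ V x) (hP : DifferentiableAt ℝ P x)
    (hVP : ∀ᶠ y in 𝓝 x, ‖y‖ = 1 → V y = P y) : dens V x = dens P x := by
  have hx0 : x ≠ 0 := by
    intro h
    simp [h] at hx
  have hr := ubc_r x hx
  have hrx : (fun y : E D => ‖y‖⁻¹ • y) x = x := by simp [hx]
  have hV' : HasFDerivAt V (fderiv ℝ V x) ((fun y : E D => ‖y‖⁻¹ • y) x) := by
    rw [hrx]; exact hV.hasFDerivAt
  have hP' : HasFDerivAt P (fderiv ℝ P x) ((fun y : E D => ‖y‖⁻¹ • y) x) := by
    rw [hrx]; exact hP.hasFDerivAt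
  have c1 := HasFDerivAt.comp (g := V) (f := fun y : E D => ‖y‖⁻¹ • y) x hV' hr
  have c2 := HasFDerivAt.comp (g := P) (f := fun y : E D => ‖y‖⁻¹ • y) x hP' hr
  have hcont : Tendsto (fun y : E D => ‖y‖⁻¹ • y) (𝓝 x) (𝓝 x) := by
    have := hr.continuousAt.tendsto
    have e : ‖x‖⁻¹ • x = x := hrx
    rwa [e] at this
  have hev : (V ∘ fun y : E D => ‖y‖⁻¹ • y) =ᶠ[𝓝 x] (P ∘ fun y : E D => ‖y‖⁻¹ • y) := by
    filter_upwards [hcont.eventually hVP, eventually_ne_nhds hx0] with y h1 h2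
    refine h1 ?_
    rw [norm_smul, norm_inv, norm_norm, inv_mul_cancel₀ (norm_ne_zero_iff.2 h2)]
  have c3 := (c2.congr_of_eventuallyEq hev).unique c1
  have hB : Bm V x = Bm P x := by
    unfold Bm
    rw [Matrix.mul_assoc, Matrix.mul_assoc, ubc_mat, ubc_mat, c3]
  unfold dens
  rw [hB]

end Pool.Agent.H248.UB
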