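import Mathlib
import Pool.Agent.H248.UB.Defs
set_option autoImplicit false
open Matrix MeasureTheory Set Metric Filter Topology
open scoped ENNReal ContDiff

namespace Pool.Agent.H248.UB
open Pool.Agent.Helper82.OS


theorem ub_phi_inner {D : ℕ} {a b : E D} {J : E D →L[ℝ] E D} (h : Fr a b J) (z w : E D) :
    inner ℝ (J z) (J w) = (inner ℝ z w : ℝ) := by
  have h1 := h.iso (z + w)
  have h2 : ‖J (z + w)‖ ^ 2 = ‖z + w‖ ^ 2 := by rw [h1]
  rw [map_add, norm_add_sq_real, norm_add_sq_real, h.iso z, h.iso w] at h2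
  linarith

theorem ub_phi_ay {D : ℕ} {a b : E D} {J : E D →L[ℝ] E D} (h : Fr a b J) (u : E D) :
    inner ℝ a (pab a b u) = (0 : ℝ) := by
  unfold pab
  rw [inner_sub_right, inner_sub_right, inner_smul_right, inner_smul_right,
    real_inner_self_eq_norm_sq, h.na, h.ab]
  ring

theorem ub_phi_by {D : ℕ} {a b : E D} {J : E D →L[ℝ] E D} (h : Fr a b J) (u : E D) :
    inner ℝ b (pab a b u) = (0 : ℝ) := by
  have hba : inner ℝ b a = (0 : ℝ) := by rw [real_inner_comm]; exact h.ab
  unfold pab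
  rw [inner_sub_right, inner_sub_right, inner_smul_right, inner_smul_right,
    real_inner_self_eq_norm_sq, h.nb, hba]
  ring

theorem ub_phi_bJ {D : ℕ} {a b : E D} {J : E D →L[ℝ] E D} (h : Fr a b J) (u : E D) :
    inner ℝ b (J (pab a b u)) = (0 : ℝ) := by
  have := ub_phi_inner h a (pab a b u)
  rw [h.Ja, ub_phi_ay h u] at this
  exact this

theorem ub_phi_aJ {D : ℕ} {a b : E D} {J : E D →L[ℝ] E D} (h : Fr a b J) (u : E D) :
    inner ℝ a (J (pab a b u)) = (0 : ℝ) := by
  have := ub_phi_inner h b (pab a b u)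
  rw [h.Jb, ub_phi_by h u, inner_neg_left] at this
  linarith

theorem phi_norm {D : ℕ} {a b : E D} {J : E D →L[ℝ] E D} (h : Fr a b J) (u : E D) :
    ‖Phi a b J u‖ ^ 2 = (‖pab a b u‖ ^ 2 - (inner ℝ b u : ℝ) ^ 2 - chi a u) ^ 2
      + (4 * (inner ℝ b u : ℝ) ^ 2 + chi a u ^ 2) * ‖pab a b u‖ ^ 2 := by
  have f1 := ub_phi_by h u
  have f1' : inner ℝ (pab a b u) b = (0 : ℝ) := by rw [real_inner_comm]; exact f1
  have f2 := ub_phi_bJ h u
  have f2' : inner ℝ (J (pab a b u)) b = (0 : ℝ) := by rw [real_inner_comm]; exact f2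
  have f3 := h.sk (pab a b u)
  have f3' : inner ℝ (pab a b u) (J (pab a b u)) = (0 : ℝ) := by rw [real_inner_comm]; exact f3
  have f4 : inner ℝ b b = (1 : ℝ) := by rw [real_inner_self_eq_norm_sq, h.nb]; norm_num
  have f5 : inner ℝ (pab a b u) (pab a b u) = ‖pab a b u‖ ^ 2 := real_inner_self_eq_norm_sq _
  have f6 : inner ℝ (J (pab a b u)) (J (pab a b u)) = ‖pab a b u‖ ^ 2 := by
    rw [ub_phi_inner h, real_inner_self_eq_norm_sq]
  rw [← real_inner_self_eq_norm_sq (Phi a b J u)]
  unfold Phi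
  simp only [inner_add_left, inner_sub_left, inner_add_right, inner_sub_right,
    real_inner_smul_left, real_inner_smul_right, f1, f1', f2, f2', f3, f3', f4, f5, f6]
  ring

theorem phi_ne {D : ℕ} {a b : E D} {J : E D →L[ℝ] E D} (h : Fr a b J) (u : E D) :
    Phi a b J u ≠ 0 := by
  intro h0
  have hn := phi_norm h u
  rw [h0, norm_zero] at hn
  have hchi : 0 ≤ chi a u := Real.smoothTransition.nonneg _
  set A : ℝ := ‖pab a b u‖ ^ 2 - (inner ℝ b u : ℝ) ^ 2 - chi a u with hA
  set s : ℝ := inner ℝ b u with hs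
  set c : ℝ := chi a u with hc
  set n : ℝ := ‖pab a b u‖ with hnn
  have hn0 : 0 ≤ n := norm_nonneg _
  have e1 : 0 ≤ A ^ 2 := sq_nonneg _
  have e2 : 0 ≤ (4 * s ^ 2 + c ^ 2) * n ^ 2 := by positivity
  have hA0 : A ^ 2 = 0 := by
    have : (0:ℝ) ^ 2 = 0 := by norm_num
    linarith
  have hB0 : (4 * s ^ 2 + c ^ 2) * n ^ 2 = 0 := by
    have : (0:ℝ) ^ 2 = 0 := by norm_num
    linarith
  have hA00 : A = 0 := by simpa using hA0
  rcases mul_eq_zero.mp hB0 with h1 | h1
  · have hs0 : s ^ 2 = 0 := by nlinarith [sq_nonneg s, sq_nonneg c]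
    have hc0 : c ^ 2 = 0 := by nlinarith [sq_nonneg s, sq_nonneg c]
    have hc00 : c = 0 := by simpa using hc0
    have hn2 : n ^ 2 = 0 := by
      rw [hA, hs0, hc00] at hA00
      linarith
    have hn00 : n = 0 := by simpa using hn2
    have hs00 : s = 0 := by simpa using hs0
    have hy : pab a b u = 0 := by simpa [hnn] using hn00
    have hpa : pa a u = 0 := by
      have : pa a u = pab a b u + s • b := by
        unfold pa pab
        rw [hs]
        abel
      rw [this, hy, hs00]
      simp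
    have : c = 1 := by
      rw [hc]
      unfold chi
      rw [hpa]
      simp
    rw [hc00] at this
    exact zero_ne_one this
  · have hn00 : n = 0 := by simpa using h1
    have hs0 : s ^ 2 = 0 := by
      rw [hA, h1] at hA00
      nlinarith [sq_nonneg s]
    have hc00 : c = 0 := by
      rw [hA, h1] at hA00
      nlinarith [sq_nonneg s]
    have hs00 : s = 0 := by simpa using hs0
    have hy : pab a b u = 0 := by simpa [hnn] using hn00
    have hpa : pa a u = 0 := by
      have : pa a u = pab a b u + s • b := by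
        unfold pa pab
        rw [hs]
        abel
      rw [this, hy, hs00]
      simp
    have : c = 1 := by
      rw [hc]
      unfold chi
      rw [hpa]
      simp
    rw [hc00] at this
    exact zero_ne_one this

theorem psi_norm {D : ℕ} {a b : E D} {J : E D →L[ℝ] E D} (h : Fr a b J) (u : E D) :
    ‖Psi a b J u‖ = 1 := by
  unfold Psi
  rw [norm_smul, norm_inv, norm_norm]
  exact inv_mul_cancel₀ (norm_ne_zero_iff.mpr (phi_ne h u))

theorem psi_perp {D : ℕ} {a b : E D} {J : E D →L[ℝ] E D} (h : Fr a b J) (u : E D) :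
    inner ℝ a (Psi a b J u) = 0 := by
  unfold Psi Phi
  rw [inner_smul_right, inner_add_right, inner_sub_right, inner_smul_right, inner_smul_right,
    inner_smul_right, ub_phi_ay h u, ub_phi_aJ h u, h.ab]
  ring

end Pool.Agent.H248.UB
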