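import Mathlib
import Pool.Agent.H248.UB.Defs
import Pool.Agent.H248.UB.Phi
set_option autoImplicit false
open Matrix MeasureTheory Set Metric Filter Topology
open scoped ENNReal ContDiff

namespace Pool.Agent.H248.UB
open Pool.Agent.Helper82.OS



theorem ub_psism_pa {D : ℕ} (a : E D) : ContDiff ℝ ∞ (fun u : E D => pa a u) := by
  unfold pa
  exact contDiff_id.sub ((contDiff_const.inner ℝ contDiff_id).smul contDiff_const)

theorem ub_psism_pab {D : ℕ} (a b : E D) : ContDiff ℝ ∞ (fun u : E D => pab a b u) := by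
  unfold pab
  exact (contDiff_id.sub ((contDiff_const.inner ℝ contDiff_id).smul contDiff_const)).sub
    ((contDiff_const.inner ℝ contDiff_id).smul contDiff_const)

theorem ub_psism_chi {D : ℕ} (a : E D) : ContDiff ℝ ∞ (fun u : E D => chi a u) := by
  unfold chi
  exact Real.smoothTransition.contDiff.comp (contDiff_const.sub ((ub_psism_pa a).norm_sq ℝ))

theorem ub_psism_phi {D : ℕ} (a b : E D) (J : E D →L[ℝ] E D) : ContDiff ℝ ∞ (Phi a b J) := by
  have h1 := ub_psism_pab a b
  have h2 := ub_psism_chi a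
  have h3 : ContDiff ℝ ∞ (fun u : E D => (inner ℝ b u : ℝ)) := contDiff_const.inner ℝ contDiff_id
  have h4 : ContDiff ℝ ∞ (fun u : E D => J (pab a b u)) := J.contDiff.comp h1
  have h5 : Phi a b J = fun u => (‖pab a b u‖ ^ 2 - (inner ℝ b u : ℝ) ^ 2 - chi a u) • b
    - (2 * (inner ℝ b u : ℝ)) • pab a b u + chi a u • J (pab a b u) := rfl
  rw [h5]
  exact (((((h1.norm_sq ℝ).sub (h3.pow 2)).sub h2).smul contDiff_const).sub
    ((contDiff_const.mul h3).smul h1)).add (h2.smul h4)

theorem psi_smooth {D : ℕ} {a b : E D} {J : E D →L[ℝ] E D} (h : Fr a b J) :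
    ContDiff ℝ ∞ (Psi a b J) := by
  have h1 := ub_psism_phi a b J
  have h5 : Psi a b J = fun u => ‖Phi a b J u‖⁻¹ • Phi a b J u := rfl
  rw [h5]
  exact ((h1.norm ℝ (fun u => phi_ne h u)).inv (fun u => norm_ne_zero_iff.2 (phi_ne h u))).smul h1

end Pool.Agent.H248.UB
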