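import Mathlib
import Pool.Agent.H248.UB.Defs
import Pool.Agent.H248.UB.PsiSm
set_option autoImplicit false
open Matrix MeasureTheory Set Metric Filter Topology
open scoped ENNReal ContDiff

namespace Pool.Agent.H248.UB
open Pool.Agent.Helper82.OS



theorem ub_ggsm_tht {D : ℕ} (a : E D) :
    ContDiff ℝ ∞ (fun p : E D × E D => tht (inner ℝ a p.1)) := by
  unfold tht
  exact Real.smoothTransition.contDiff.comp
    ((contDiff_const.inner ℝ contDiff_fst).add contDiff_const)

theorem GG_smooth {D : ℕ} {a b : E D} {J : E D →L[ℝ] E D} (h : Fr a b J) :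
    ContDiff ℝ ∞ (GG a b J) := by
  rw [contDiff_iff_contDiffAt]
  intro p
  have hth := ub_ggsm_tht a
  have hcont : Continuous (fun q : E D × E D => (inner ℝ a q.1 : ℝ)) :=
    continuous_const.inner continuous_fst
  have hA : ContDiffAt ℝ ∞ (fun q : E D × E D => tht (inner ℝ a q.1) • PP a b q.1) p := by
    by_cases hp : -1 < (inner ℝ a p.1 : ℝ)
    · have hne : 1 + (inner ℝ p.1 a : ℝ) ≠ 0 := by
        rw [real_inner_comm]
        linarith
      refine hth.contDiffAt.smul ?_
      unfold PP
      have hd : ContDiffAt ℝ ∞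
          (fun q : E D × E D => (inner ℝ b q.1 : ℝ) / (1 + (inner ℝ q.1 a : ℝ))) p := by
        apply ContDiffAt.fun_div
        · exact contDiffAt_const.inner ℝ contDiffAt_fst
        · exact contDiffAt_const.add (contDiffAt_fst.inner ℝ contDiffAt_const)
        · exact hne
      exact contDiffAt_const.sub (hd.smul (contDiffAt_fst.add contDiffAt_const))
    · have hlt : (inner ℝ a p.1 : ℝ) < -(1 / 2) := by
        push Not at hp
        linarith
      have hev : ∀ᶠ q : E D × E D in 𝓝 p, (inner ℝ a q.1 : ℝ) < -(1 / 2) :=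
        hcont.continuousAt.eventually_lt continuousAt_const hlt
      refine (contDiffAt_const (c := (0 : E D))).congr_of_eventuallyEq ?_
      filter_upwards [hev] with q hq
      have h0 : tht (inner ℝ a q.1) = 0 := by
        unfold tht
        exact Real.smoothTransition.zero_of_nonpos (by linarith)
      rw [h0, zero_smul]
  have hB : ContDiffAt ℝ ∞
      (fun q : E D × E D => (1 - tht (inner ℝ a q.1)) • TX a q.1 (Psi a b J q.2)) p := by
    have hpsi : ContDiffAt ℝ ∞ (fun q : E D × E D => Psi a b J q.2) p :=
      ((psi_smooth h).comp contDiff_snd).contDiffAt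
    by_cases hp : (inner ℝ a p.1 : ℝ) < 1
    · have hne : 1 - (inner ℝ a p.1 : ℝ) ≠ 0 := by linarith
      refine (contDiffAt_const.sub hth.contDiffAt).smul ?_
      unfold TX
      have hd : ContDiffAt ℝ ∞
          (fun q : E D × E D => (inner ℝ (Psi a b J q.2) q.1 : ℝ) / (1 - (inner ℝ a q.1 : ℝ))) p := by
        apply ContDiffAt.fun_div
        · exact hpsi.inner ℝ contDiffAt_fst
        · exact contDiffAt_const.sub (contDiffAt_const.inner ℝ contDiffAt_fst)
        · exact hne
      exact hpsi.sub (hd.smul (contDiffAt_fst.sub contDiffAt_const))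
    · have hlt : (1 / 2 : ℝ) < (inner ℝ a p.1 : ℝ) := by
        push Not at hp
        linarith
      have hev : ∀ᶠ q : E D × E D in 𝓝 p, (1 / 2 : ℝ) < (inner ℝ a q.1 : ℝ) :=
        continuousAt_const.eventually_lt hcont.continuousAt hlt
      refine (contDiffAt_const (c := (0 : E D))).congr_of_eventuallyEq ?_
      filter_upwards [hev] with q hq
      have h0 : tht (inner ℝ a q.1) = 1 := by
        unfold tht
        exact Real.smoothTransition.one_of_one_le (by linarith)
      rw [h0, sub_self, zero_smul]
  exact hA.add hB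

end Pool.Agent.H248.UB
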