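import Mathlib
import Pool.Agent.H248.UB.Defs
import Pool.Agent.H248.UB.Phi
set_option autoImplicit false
open Matrix MeasureTheory Set Metric Filter Topology
open scoped ENNReal ContDiff

namespace Pool.Agent.H248.UB
open Pool.Agent.Helper82.OS




theorem psi_far {D : ℕ} {a b : E D} {J : E D →L[ℝ] E D} (h : Fr a b J) (u : E D)
    (hu : 1 ≤ ‖pa a u‖) :
    Psi a b J u = b - (2 * (inner ℝ b u : ℝ) / ‖pa a u‖ ^ 2) • pa a u := by
  set s : ℝ := inner ℝ b u with hs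
  set y : E D := pab a b u with hy
  have hpa : pa a u = y + s • b := by
    rw [hy]
    unfold pa pab
    rw [← hs]
    abel
  have hyb : inner ℝ y b = (0 : ℝ) := by
    rw [hy]
    unfold pab
    rw [inner_sub_left, inner_sub_left, inner_smul_left, inner_smul_left, h.ab,
      real_inner_self_eq_norm_sq, h.nb, real_inner_comm b u]
    simp
  have hr : ‖pa a u‖ ^ 2 = ‖y‖ ^ 2 + s ^ 2 := by
    rw [hpa, @norm_add_sq ℝ, inner_smul_right, hyb, norm_smul, h.nb]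
    simp
  have hr1 : 1 ≤ ‖pa a u‖ ^ 2 := by nlinarith [norm_nonneg (pa a u)]
  have hchi : chi a u = 0 := by
    unfold chi
    exact Real.smoothTransition.zero_of_nonpos (by linarith)
  have hn := phi_norm h u
  rw [hchi, ← hs, ← hy] at hn
  have hn2 : ‖Phi a b J u‖ ^ 2 = (‖y‖ ^ 2 + s ^ 2) ^ 2 := by
    rw [hn]; ring
  have hn3 : ‖Phi a b J u‖ = ‖y‖ ^ 2 + s ^ 2 := by
    have h1 : 0 ≤ ‖y‖ ^ 2 + s ^ 2 := by positivity
    exact (sq_eq_sq₀ (norm_nonneg _) h1).mp hn2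
  have hr0 : ‖y‖ ^ 2 + s ^ 2 ≠ 0 := by
    rw [← hr]; linarith
  unfold Psi
  rw [hn3, hr, hpa]
  unfold Phi
  rw [hchi, ← hs, ← hy, zero_smul, sub_zero, add_zero]
  have e : (‖y‖ ^ 2 + s ^ 2)⁻¹ • ((‖y‖ ^ 2 - s ^ 2) • b - (2 * s) • y) =
      b - (2 * s / (‖y‖ ^ 2 + s ^ 2)) • (y + s • b) := by
    have e1 : ‖y‖ ^ 2 - s ^ 2 = (‖y‖ ^ 2 + s ^ 2) - 2 * s ^ 2 := by ring
    rw [e1]
    generalize ‖y‖ ^ 2 + s ^ 2 = r at hr0 ⊢
    match_scalars <;> field_simp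
  exact e

end Pool.Agent.H248.UB
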