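import Mathlib
import Pool.Agent.H248.UB.Defs
set_option autoImplicit false
open Matrix MeasureTheory Set Metric Filter Topology
open scoped ENNReal ContDiff

namespace Pool.Agent.H248.UB
open Pool.Agent.Helper82.OS


theorem TX_dip {D : ℕ} (a b x : E D) (ha : ‖a‖ = 1) (hb : ‖b‖ = 1) (hab : inner ℝ a b = 0)
    (hx : ‖x‖ = 1) (hp : pa a x ≠ 0) :
    TX a x (b - (2 * (inner ℝ b x : ℝ) / ‖pa a x‖ ^ 2) • pa a x) = PP a b x := by
  have hxx : (inner ℝ x x : ℝ) = 1 := by rw [real_inner_self_eq_norm_sq, hx]; norm_num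
  have haa : (inner ℝ a a : ℝ) = 1 := by rw [real_inner_self_eq_norm_sq, ha]; norm_num
  have hxa : (inner ℝ x a : ℝ) = inner ℝ a x := real_inner_comm _ _
  have hN : ‖pa a x‖ ^ 2 = 1 - (inner ℝ a x : ℝ) ^ 2 := by
    rw [← real_inner_self_eq_norm_sq, pa, inner_sub_left, inner_sub_right, inner_sub_right,
      real_inner_smul_left, real_inner_smul_left, real_inner_smul_right, real_inner_smul_right,
      hxx, haa, hxa]
    ring
  have hN0 : (1 - (inner ℝ a x : ℝ) ^ 2) ≠ 0 := by
    rw [← hN]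
    exact pow_ne_zero 2 (norm_ne_zero_iff.mpr hp)
  have hu : (inner ℝ (b - (2 * (inner ℝ b x : ℝ) / ‖pa a x‖ ^ 2) • pa a x) x : ℝ) =
      - inner ℝ b x := by
    rw [inner_sub_left, real_inner_smul_left, hN, pa, inner_sub_left, real_inner_smul_left, hxx]
    field_simp
    ring
  unfold TX
  rw [hu, hN, PP, pa, hxa]
  set c : ℝ := inner ℝ a x with hc
  set β : ℝ := inner ℝ b x with hβ
  have h1 : 1 - c ≠ 0 := by
    intro h
    apply hN0
    have : 1 - c ^ 2 = (1 - c) * (1 + c) := by ring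
    rw [this, h, zero_mul]
  have h2 : 1 + c ≠ 0 := by
    intro h
    apply hN0
    have : 1 - c ^ 2 = (1 - c) * (1 + c) := by ring
    rw [this, h, mul_zero]
  match_scalars
  · ring
  · field_simp
    ring
  · field_simp
    ring

end Pool.Agent.H248.UB
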