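import Mathlib
import Pool.Agent.H248.UB.Defs
set_option autoImplicit false
open Matrix MeasureTheory Set Metric Filter Topology
open scoped ENNReal ContDiff

namespace Pool.Agent.H248.UB
open Pool.Agent.Helper82.OS


theorem TX_tan {D : ℕ} (a x u : E D) (ha : ‖a‖ = 1) (hx : ‖x‖ = 1) (hu : inner ℝ a u = 0)
    (hc : (inner ℝ a x : ℝ) ≠ 1) : inner ℝ x (TX a x u) = 0 ∧ ‖TX a x u‖ = ‖u‖ := by
  have hc' : 1 - (inner ℝ a x : ℝ) ≠ 0 := sub_ne_zero.2 (Ne.symm hc)
  have hxx : (inner ℝ x x : ℝ) = 1 := by rw [real_inner_self_eq_norm_sq, hx]; norm_num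
  have haa : (inner ℝ a a : ℝ) = 1 := by rw [real_inner_self_eq_norm_sq, ha]; norm_num
  have hua : (inner ℝ u a : ℝ) = 0 := by rw [real_inner_comm]; exact hu
  have hxa : (inner ℝ x a : ℝ) = inner ℝ a x := real_inner_comm _ _
  have hxu : (inner ℝ x u : ℝ) = inner ℝ u x := real_inner_comm _ _
  obtain ⟨t, ht⟩ : ∃ t : ℝ, t = (inner ℝ u x : ℝ) / (1 - (inner ℝ a x : ℝ)) := ⟨_, rfl⟩
  have ht' : t * (1 - (inner ℝ a x : ℝ)) = inner ℝ u x := by
    rw [ht]; field_simp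
  have hT : TX a x u = u - t • (x - a) := by rw [ht]; rfl
  rw [hT]
  constructor
  · rw [inner_sub_right, inner_smul_right, inner_sub_right, hxx, hxa, hxu, ← ht']
    ring
  · have h1 : ‖u - t • (x - a)‖ ^ 2 = ‖u‖ ^ 2 := by
      rw [← real_inner_self_eq_norm_sq, ← real_inner_self_eq_norm_sq]
      simp only [inner_sub_right, inner_sub_left, inner_smul_right, inner_smul_left, hxx, haa, hua,
        hu, hxa, hxu, ← ht', conj_trivial]
      ring
    exact (sq_eq_sq₀ (norm_nonneg _) (norm_nonneg _)).1 h1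

theorem PP_tan {D : ℕ} (a b x : E D) (ha : ‖a‖ = 1) (hb : ‖b‖ = 1) (hab : inner ℝ a b = 0)
    (hx : ‖x‖ = 1) (hc : (inner ℝ a x : ℝ) ≠ -1) :
    inner ℝ x (PP a b x) = 0 ∧ ‖PP a b x‖ = 1 := by
  have hxa : (inner ℝ x a : ℝ) = inner ℝ a x := real_inner_comm _ _
  have hc' : 1 + (inner ℝ x a : ℝ) ≠ 0 := by
    rw [hxa]
    intro h
    exact hc (by linarith)
  have hxx : (inner ℝ x x : ℝ) = 1 := by rw [real_inner_self_eq_norm_sq, hx]; norm_num
  have haa : (inner ℝ a a : ℝ) = 1 := by rw [real_inner_self_eq_norm_sq, ha]; norm_num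
  have hbb : (inner ℝ b b : ℝ) = 1 := by rw [real_inner_self_eq_norm_sq, hb]; norm_num
  have hba : (inner ℝ b a : ℝ) = 0 := by rw [real_inner_comm]; exact hab
  have hxb : (inner ℝ x b : ℝ) = inner ℝ b x := real_inner_comm _ _
  obtain ⟨t, ht⟩ : ∃ t : ℝ, t = (inner ℝ b x : ℝ) / (1 + (inner ℝ x a : ℝ)) := ⟨_, rfl⟩
  have ht' : t * (1 + (inner ℝ x a : ℝ)) = inner ℝ b x := by
    rw [ht]; field_simp
  have hT : PP a b x = b - t • (x + a) := by rw [ht]; rfl
  rw [hxa] at ht'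
  rw [hT]
  constructor
  · rw [inner_sub_right, inner_smul_right, inner_add_right, hxx, hxa, hxb, ← ht']
    ring
  · have h1 : ‖b - t • (x + a)‖ ^ 2 = 1 ^ 2 := by
      rw [← real_inner_self_eq_norm_sq]
      simp only [inner_sub_right, inner_sub_left, inner_add_right, inner_add_left,
        inner_smul_right, inner_smul_left, hxx, haa, hba, hbb,
        hab, hxa, hxb, ← ht', conj_trivial]
      ring
    exact (sq_eq_sq₀ (norm_nonneg _) zero_le_one).1 h1

end Pool.Agent.H248.UB
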