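import Mathlib
import Pool.Agent.H248.UB.Defs
import Pool.Agent.H248.UB.Far
import Pool.Agent.H248.UB.GGSm
import Pool.Agent.H248.UB.Phi
import Pool.Agent.H248.UB.TXDip
import Pool.Agent.H248.UB.TXTan
set_option autoImplicit false
open Matrix MeasureTheory Set Metric Filter Topology
open scoped ENNReal ContDiff

namespace Pool.Agent.H248.UB
open Pool.Agent.Helper82.OS









theorem ub_vf_pa_smul {D : ℕ} (a u : E D) (t : ℝ) : pa a (t • u) = t • pa a u := by
  unfold pa
  rw [inner_smul_right, smul_sub, smul_smul]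

theorem ub_vf_inner_pa {D : ℕ} (a x : E D) (ha : ‖a‖ = 1) : inner ℝ a (pa a x) = 0 := by
  unfold pa
  rw [inner_sub_right, inner_smul_right, real_inner_self_eq_norm_sq, ha]
  ring

theorem ub_vf_pa_pa {D : ℕ} (a x : E D) (ha : ‖a‖ = 1) : pa a (pa a x) = pa a x := by
  rw [pa, ub_vf_inner_pa a x ha, zero_smul, sub_zero]

theorem ub_vf_inner_b {D : ℕ} (a b x : E D) (hab : inner ℝ a b = 0) :
    inner ℝ b (pa a x) = inner ℝ b x := by
  unfold pa
  rw [inner_sub_right, inner_smul_right, real_inner_comm a b, hab]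
  ring

theorem ub_vf_norm_sq {D : ℕ} (a x : E D) (ha : ‖a‖ = 1) (hx : ‖x‖ = 1) :
    ‖pa a x‖ ^ 2 = 1 - (inner ℝ a x : ℝ) ^ 2 := by
  unfold pa
  rw [norm_sub_sq_real, norm_smul, inner_smul_right, ha, hx, real_inner_comm a x, mul_one,
    Real.norm_eq_abs, sq_abs]
  ring

theorem Vf_eq {D : ℕ} {a b : E D} {J : E D →L[ℝ] E D} (h : Fr a b J) (ε : ℝ) (he : 0 < ε)
    (x : E D) (hx : ‖x‖ = 1) (hc : ε ≤ ‖pa a x‖ ∨ 1 / 2 ≤ (inner ℝ a x : ℝ)) :
    Vf a b J ε x = PP a b x := by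
  rcases hc with hc | hc
  · have hp : pa a x ≠ 0 := by
      intro h0
      rw [h0, norm_zero] at hc
      linarith
    have hpn : ‖pa a x‖ ≠ 0 := norm_ne_zero_iff.mpr hp
    have hpa : pa a (ε⁻¹ • pa a x) = ε⁻¹ • pa a x := by
      rw [ub_vf_pa_smul, ub_vf_pa_pa a x h.na]
    have hn : ‖ε⁻¹ • pa a x‖ = ε⁻¹ * ‖pa a x‖ := by
      rw [norm_smul, Real.norm_eq_abs, abs_of_pos (by positivity)]
    have hu : 1 ≤ ‖pa a (ε⁻¹ • pa a x)‖ := by
      rw [hpa, hn, ← div_eq_inv_mul]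
      exact (one_le_div he).mpr hc
    have h1 : Psi a b J (ε⁻¹ • pa a x) = b - (2 * (inner ℝ b x : ℝ) / ‖pa a x‖ ^ 2) • pa a x := by
      rw [psi_far h _ hu, hpa, hn, inner_smul_right, ub_vf_inner_b a b x h.ab, smul_smul]
      congr 2
      field_simp
    unfold Vf GG
    simp only
    rw [h1, TX_dip a b x h.na h.nb h.ab hx hp, ← add_smul]
    simp
  · have ht : tht (inner ℝ a x) = 1 := by
      unfold tht
      exact Real.smoothTransition.one_of_one_le (by linarith)
    unfold Vf GG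
    simp only
    rw [ht]
    simp

theorem Vf_UT {D : ℕ} {a b : E D} {J : E D →L[ℝ] E D} (h : Fr a b J) (ε : ℝ) (he : 0 < ε)
    (he2 : ε < 1 / 2) : UT (Vf a b J ε) := by
  have key : ∀ x : E D, ‖x‖ = 1 → inner ℝ x (Vf a b J ε x) = 0 ∧ ‖Vf a b J ε x‖ = 1 := by
    intro x hx
    have hsq := ub_vf_norm_sq a x h.na hx
    by_cases hc : ε ≤ ‖pa a x‖ ∨ 1 / 2 ≤ (inner ℝ a x : ℝ)
    · rw [Vf_eq h ε he x hx hc]
      refine PP_tan a b x h.na h.nb h.ab hx ?_
      intro h1
      rw [h1] at hsq hc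
      have h2 : ‖pa a x‖ = 0 := by
        have : ‖pa a x‖ ^ 2 = 0 := by rw [hsq]; norm_num
        exact pow_eq_zero_iff (two_ne_zero) |>.mp this
      rcases hc with hc | hc
      · linarith
      · linarith
    · push Not at hc
      obtain ⟨hc1, hc2⟩ := hc
      have h3 : ‖pa a x‖ ^ 2 < 1 / 4 := by
        have h0 := norm_nonneg (pa a x)
        nlinarith
      have h4 : (inner ℝ a x : ℝ) ≤ -(1 / 2) := by
        by_contra h5
        push Not at h5
        rw [hsq] at h3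
        nlinarith
      have ht : tht (inner ℝ a x) = 0 := by
        unfold tht
        exact Real.smoothTransition.zero_of_nonpos (by linarith)
      have h6 : Vf a b J ε x = TX a x (Psi a b J (ε⁻¹ • pa a x)) := by
        unfold Vf GG
        simp only
        rw [ht]
        simp
      have h7 := TX_tan a x (Psi a b J (ε⁻¹ • pa a x)) h.na hx (psi_perp h _) (by
        intro h8
        rw [h8] at h4
        linarith)
      rw [h6]
      exact ⟨h7.1, by rw [h7.2, psi_norm h]⟩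
  refine ⟨?_, fun x hx => (key x hx).1, fun x hx => (key x hx).2⟩
  have h1 : ContDiff ℝ ∞ (fun x : E D => (x, ε⁻¹ • pa a x)) := by
    unfold pa
    have h2 : ContDiff ℝ ∞ (fun x : E D => (inner ℝ a x : ℝ)) := contDiff_const.inner ℝ contDiff_id
    have h3 : ContDiff ℝ ∞ (fun x : E D => (inner ℝ a x : ℝ) • a) := ContDiff.smul h2 contDiff_const
    have h4 : ContDiff ℝ ∞ (fun x : E D => x - (inner ℝ a x : ℝ) • a) := ContDiff.sub contDiff_id h3
    have h5 : ContDiff ℝ ∞ (fun x : E D => ε⁻¹ • (x - (inner ℝ a x : ℝ) • a)) :=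
      ContDiff.const_smul ε⁻¹ h4
    exact ContDiff.prodMk contDiff_id h5
  exact (GG_smooth h).comp h1

end Pool.Agent.H248.UB
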