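import Mathlib
import Pool.Agent.H248.UB.Defs
import Pool.Agent.H248.UB.Congr
import Pool.Agent.H248.UB.GGSm
import Pool.Agent.H248.UB.VfL
set_option autoImplicit false
open Matrix MeasureTheory Set Metric Filter Topology
open scoped ENNReal ContDiff

namespace Pool.Agent.H248.UB
open Pool.Agent.Helper82.OS





theorem ub_densvf_cont {D : ℕ} (a : E D) : Continuous fun y : E D => ‖pa a y‖ := by
  unfold pa
  fun_prop

theorem ub_densvf_ne {D : ℕ} (a x : E D) (ha : ‖a‖ = 1) (hx : ‖x‖ = 1) (hp : 0 < ‖pa a x‖) :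
    1 + (inner ℝ x a : ℝ) ≠ 0 := by
  intro h
  have hc : (inner ℝ x a : ℝ) = -1 := by linarith
  have hc2 : (inner ℝ a x : ℝ) = -1 := by rw [real_inner_comm]; exact hc
  have h2 : ‖pa a x‖ ^ 2 = 0 := by
    unfold pa
    rw [norm_sub_sq_real, inner_smul_right, norm_smul, hc2, hc, ha, hx]
    norm_num
  have h3 : ‖pa a x‖ = 0 := by
    rwa [sq_eq_zero_iff] at h2
  rw [h3] at hp
  exact lt_irrefl _ hp

theorem dens_Vf {D : ℕ} {a b : E D} {J : E D →L[ℝ] E D} (h : Fr a b J) (ε : ℝ) (he : 0 < ε)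
    (he2 : ε < 1 / 2) (x : E D) (hx : ‖x‖ = 1) (hc : ε < ‖pa a x‖) :
    dens (Vf a b J ε) x = dens (PP a b) x := by
  have hne := ub_densvf_ne a x h.na hx (lt_trans he hc)
  have hV : DifferentiableAt ℝ (Vf a b J ε) x := by
    have h1 : DifferentiableAt ℝ (GG a b J) (x, ε⁻¹ • pa a x) :=
      ((GG_smooth h).differentiable (by simp)) _
    have h2 : DifferentiableAt ℝ (fun y : E D => (y, ε⁻¹ • pa a y)) x := by
      have h3 : DifferentiableAt ℝ (fun y : E D => (inner ℝ a y : ℝ)) x :=
        (differentiableAt_const a).inner ℝ differentiableAt_id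
      have h4 : DifferentiableAt ℝ (fun y : E D => pa a y) x := by
        unfold pa
        exact differentiableAt_id.sub (h3.smul (differentiableAt_const a))
      exact differentiableAt_id.prodMk (h4.const_smul ε⁻¹)
    exact DifferentiableAt.comp (f := fun y : E D => (y, ε⁻¹ • pa a y)) x h1 h2
  have hP : DifferentiableAt ℝ (PP a b) x := by
    unfold PP
    have h1 : DifferentiableAt ℝ (fun y : E D => (inner ℝ b y : ℝ)) x :=
      (differentiableAt_const b).inner ℝ differentiableAt_id
    have h2 : DifferentiableAt ℝ (fun y : E D => 1 + (inner ℝ y a : ℝ)) x :=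
      (differentiableAt_id.inner ℝ (differentiableAt_const a)).const_add 1
    have h3 : DifferentiableAt ℝ (fun y : E D => y + a) x := by fun_prop
    have h4 : DifferentiableAt ℝ (fun y : E D => (inner ℝ b y : ℝ) / (1 + (inner ℝ y a : ℝ))) x :=
      by
        have h5 : DifferentiableAt ℝ (fun y : E D => (1 + (inner ℝ y a : ℝ))⁻¹) x :=
          DifferentiableAt.fun_inv (h := fun y : E D => 1 + (inner ℝ y a : ℝ)) h2 hne
        have h6 := h1.mul h5
        refine h6.congr_of_eventuallyEq (Filter.Eventually.of_forall fun y => ?_)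
        change (inner ℝ b y : ℝ) / (1 + (inner ℝ y a : ℝ)) = inner ℝ b y * (1 + (inner ℝ y a : ℝ))⁻¹
        rw [div_eq_mul_inv]
    exact (h4.smul h3).const_sub b
  refine dens_congr _ _ x hx hV hP ?_
  have hev : ∀ᶠ y in 𝓝 x, ε < ‖pa a y‖ :=
    (ub_densvf_cont a).continuousAt.eventually (lt_mem_nhds hc)
  filter_upwards [hev] with y hy hy1
  exact Vf_eq h ε he y hy1 (Or.inl hy.le)

end Pool.Agent.H248.UB
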