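import Mathlib
import Pool.Agent.H248.UB.Defs
import Pool.Agent.H248.UB.GGSm
set_option autoImplicit false
open Matrix MeasureTheory Set Metric Filter Topology
open scoped ENNReal ContDiff

namespace Pool.Agent.H248.UB
open Pool.Agent.Helper82.OS



theorem ub_fdbd_pa_le {D : ℕ} {a : E D} (ha : ‖a‖ = 1) (u : E D) : ‖pa a u‖ ≤ ‖u‖ := by
  have h1 : ‖pa a u‖ ^ 2 = ‖u‖ ^ 2 - (inner ℝ a u : ℝ) ^ 2 := by
    unfold pa
    rw [norm_sub_sq_real, inner_smul_right, norm_smul, ha, real_inner_comm a u, mul_one,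
      Real.norm_eq_abs, sq_abs]
    ring
  have h2 : ‖pa a u‖ ^ 2 ≤ ‖u‖ ^ 2 := by
    rw [h1]
    nlinarith [sq_nonneg (inner ℝ a u : ℝ)]
  exact (pow_le_pow_iff_left₀ (norm_nonneg _) (norm_nonneg _) two_ne_zero).mp h2

theorem fderiv_bd {D : ℕ} {a b : E D} {J : E D →L[ℝ] E D} (h : Fr a b J) :
    ∃ K : ℝ, 0 ≤ K ∧ ∀ ε : ℝ, 0 < ε → ε < 1 → ∀ x : E D, ‖x‖ = 1 → ‖pa a x‖ ≤ ε →
      ‖fderiv ℝ (Vf a b J ε) x‖ ≤ K / ε := by
  have hs := GG_smooth h
  have hcont : Continuous (fderiv ℝ (GG a b J)) := hs.continuous_fderiv (by simp)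
  have hcomp : IsCompact (closedBall (0 : E D) 1 ×ˢ closedBall (0 : E D) 1) :=
    (isCompact_closedBall _ _).prod (isCompact_closedBall _ _)
  obtain ⟨C, hC⟩ := hcomp.exists_bound_of_continuousOn hcont.continuousOn
  refine ⟨max C 0, le_max_right _ _, ?_⟩
  intro ε hε hε1 x hx hpx
  let P : E D →L[ℝ] E D := ContinuousLinearMap.id ℝ (E D) - (innerSL ℝ a).smulRight a
  have hP : ∀ u, P u = pa a u := by
    intro u
    simp only [P, pa]
    rfl
  let g : E D →L[ℝ] (E D × E D) := (ContinuousLinearMap.id ℝ (E D)).prod (ε⁻¹ • P)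
  have hg : ∀ u, g u = (u, ε⁻¹ • pa a u) := by
    intro u
    rw [← hP]
    rfl
  have hV : Vf a b J ε = GG a b J ∘ g := by
    funext u
    simp only [Vf, Function.comp, hg]
  have hd : DifferentiableAt ℝ (GG a b J) (g x) := (hs.differentiable (by simp)) (g x)
  rw [hV, fderiv_comp x hd g.differentiableAt, g.fderiv]
  have hgn : ‖g‖ ≤ 1 / ε := by
    apply ContinuousLinearMap.opNorm_le_bound _ (by positivity)
    intro u
    rw [hg, Prod.norm_def]
    apply max_le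
    · change ‖u‖ ≤ 1 / ε * ‖u‖
      have : 1 ≤ 1 / ε := by
        rw [le_div_iff₀ hε]
        linarith
      nlinarith [norm_nonneg u]
    · change ‖ε⁻¹ • pa a u‖ ≤ 1 / ε * ‖u‖
      rw [norm_smul, Real.norm_of_nonneg (by positivity : (0:ℝ) ≤ ε⁻¹), one_div]
      exact mul_le_mul_of_nonneg_left (ub_fdbd_pa_le h.na u) (by positivity)
  have hmem : g x ∈ closedBall (0 : E D) 1 ×ˢ closedBall (0 : E D) 1 := by
    rw [hg]
    constructor
    · rw [mem_closedBall_zero_iff]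
      exact hx.le
    · rw [mem_closedBall_zero_iff]
      change ‖ε⁻¹ • pa a x‖ ≤ 1
      rw [norm_smul, Real.norm_of_nonneg (by positivity : (0:ℝ) ≤ ε⁻¹)]
      calc ε⁻¹ * ‖pa a x‖ ≤ ε⁻¹ * ε := mul_le_mul_of_nonneg_left hpx (by positivity)
        _ = 1 := inv_mul_cancel₀ hε.ne'
  calc ‖(fderiv ℝ (GG a b J) (g x)).comp g‖
      ≤ ‖fderiv ℝ (GG a b J) (g x)‖ * ‖g‖ := ContinuousLinearMap.opNorm_comp_le _ _
    _ ≤ max C 0 * (1 / ε) := by
        apply mul_le_mul ((hC _ hmem).trans (le_max_left _ _)) hgn (norm_nonneg _)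
          (le_max_right _ _)
    _ = max C 0 / ε := by ring

end Pool.Agent.H248.UB
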