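import Mathlib
import Pool.Agent.H248.UB.Defs
set_option autoImplicit false
open Matrix MeasureTheory Set Metric Filter Topology
open scoped ENNReal ContDiff

namespace Pool.Agent.H248.UB
open Pool.Agent.Helper82.OS


/-- the pairing of coordinates -/
def ub_fr_sg (m : ℕ) (i : Fin (2 * m + 2)) : Fin (2 * m + 2) :=
  if h : i.val % 2 = 0 then ⟨i.val + 1, by omega⟩ else ⟨i.val - 1, by omega⟩

lemma ub_fr_sg_val (m : ℕ) (i : Fin (2 * m + 2)) :
    (ub_fr_sg m i).val = if i.val % 2 = 0 then i.val + 1 else i.val - 1 := by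
  unfold ub_fr_sg
  split_ifs <;> rfl

lemma ub_fr_sg_sg (m : ℕ) (i : Fin (2 * m + 2)) : ub_fr_sg m (ub_fr_sg m i) = i := by
  apply Fin.ext
  rw [ub_fr_sg_val, ub_fr_sg_val]
  split_ifs <;> omega

/-- the pairing as an equivalence -/
def ub_fr_eq (m : ℕ) : Fin (2 * m + 2) ≃ Fin (2 * m + 2) where
  toFun := ub_fr_sg m
  invFun := ub_fr_sg m
  left_inv := ub_fr_sg_sg m
  right_inv := ub_fr_sg_sg m

/-- the signs -/
noncomputable def ub_fr_s (m : ℕ) (i : Fin (2 * m + 2)) : ℝ := if i.val % 2 = 0 then -1 else 1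

lemma ub_fr_s_sq (m : ℕ) (i : Fin (2 * m + 2)) : ub_fr_s m i ^ 2 = 1 := by
  unfold ub_fr_s
  split_ifs <;> norm_num

lemma ub_fr_s_sg (m : ℕ) (i : Fin (2 * m + 2)) : ub_fr_s m (ub_fr_sg m i) = - ub_fr_s m i := by
  unfold ub_fr_s
  rw [ub_fr_sg_val]
  by_cases h : i.val % 2 = 0
  · rw [if_pos h, if_pos h, if_neg (by omega)]
    norm_num
  · rw [if_neg h, if_neg h, if_pos (by omega)]

/-- the complex structure as a linear map -/
noncomputable def ub_fr_L (m : ℕ) : E (2 * m + 2) →ₗ[ℝ] E (2 * m + 2) where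
  toFun y := WithLp.toLp 2 (fun i => ub_fr_s m i * y.ofLp (ub_fr_sg m i))
  map_add' x y := by
    ext i
    simp [mul_add]
  map_smul' c x := by
    ext i
    simp
    ring

/-- the complex structure -/
noncomputable def ub_fr_J (m : ℕ) : E (2 * m + 2) →L[ℝ] E (2 * m + 2) :=
  LinearMap.toContinuousLinearMap (ub_fr_L m)

lemma ub_fr_J_apply (m : ℕ) (y : E (2 * m + 2)) (i : Fin (2 * m + 2)) :
    ub_fr_J m y i = ub_fr_s m i * y (ub_fr_sg m i) := rfl

lemma ub_fr_sg_eq_zero (m : ℕ) (i : Fin (2 * m + 2)) : ub_fr_sg m i = 0 ↔ i = 1 := by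
  rw [Fin.ext_iff, Fin.ext_iff, ub_fr_sg_val, Fin.val_one, Fin.val_zero]
  by_cases h : i.val % 2 = 0
  · rw [if_pos h]
    omega
  · rw [if_neg h]
    omega

lemma ub_fr_sg_eq_one (m : ℕ) (i : Fin (2 * m + 2)) : ub_fr_sg m i = 1 ↔ i = 0 := by
  rw [Fin.ext_iff, Fin.ext_iff, ub_fr_sg_val, Fin.val_one, Fin.val_zero]
  split_ifs <;> omega

theorem fr_exists (m : ℕ) : ∃ J : E (2 * m + 2) →L[ℝ] E (2 * m + 2),
    Fr (EuclideanSpace.single 0 1) (EuclideanSpace.single 1 1) J := by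
  refine ⟨ub_fr_J m, ?_, ?_, ?_, ?_, ?_, ?_, ?_⟩
  · simp
  · simp
  · rw [EuclideanSpace.inner_single_left]
    simp
  · intro y
    rw [PiLp.inner_apply]
    have h1 : ∀ i, inner ℝ (ub_fr_J m y i) (y i) = ub_fr_s m i * y (ub_fr_sg m i) * y i := by
      intro i
      rw [ub_fr_J_apply]
      simp
      ring
    simp only [h1]
    have h2 : ∑ i, ub_fr_s m i * y (ub_fr_sg m i) * y i
        = ∑ i, ub_fr_s m (ub_fr_eq m i) * y (ub_fr_sg m (ub_fr_eq m i)) * y (ub_fr_eq m i) :=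
      (Equiv.sum_comp (ub_fr_eq m) (fun i => ub_fr_s m i * y (ub_fr_sg m i) * y i)).symm
    have h3 : ∀ i, ub_fr_s m (ub_fr_eq m i) * y (ub_fr_sg m (ub_fr_eq m i)) * y (ub_fr_eq m i)
        = -(ub_fr_s m i * y (ub_fr_sg m i) * y i) := by
      intro i
      change ub_fr_s m (ub_fr_sg m i) * y (ub_fr_sg m (ub_fr_sg m i)) * y (ub_fr_sg m i) = _
      rw [ub_fr_s_sg, ub_fr_sg_sg]
      ring
    simp only [h3, Finset.sum_neg_distrib] at h2
    linarith
  · intro y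
    have h1 : ‖ub_fr_J m y‖ ^ 2 = ‖y‖ ^ 2 := by
      rw [EuclideanSpace.real_norm_sq_eq, EuclideanSpace.real_norm_sq_eq]
      have h2 : ∀ i, (ub_fr_J m y i) ^ 2 = y (ub_fr_eq m i) ^ 2 := by
        intro i
        rw [ub_fr_J_apply, mul_pow, ub_fr_s_sq, one_mul]
        rfl
      simp only [h2]
      exact Equiv.sum_comp (ub_fr_eq m) (fun i => y i ^ 2)
    exact (pow_left_inj₀ (norm_nonneg _) (norm_nonneg _) two_ne_zero).1 h1
  · ext i
    rw [ub_fr_J_apply]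
    simp only [PiLp.single_apply, ub_fr_sg_eq_zero]
    by_cases h : i = 1
    · subst h
      simp [ub_fr_s]
    · simp [h]
  · ext i
    rw [ub_fr_J_apply]
    simp only [PiLp.neg_apply, PiLp.single_apply, ub_fr_sg_eq_one]
    by_cases h : i = 0
    · subst h
      simp [ub_fr_s]
    · simp [h]

end Pool.Agent.H248.UB
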