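import Mathlib
import Pool.Agent.H248.UB.Defs
import Pool.Agent.H248.UB.Cap
import Pool.Agent.H248.UB.DensBd
import Pool.Agent.H248.UB.DensVf
import Pool.Agent.H248.UB.FdBd
import Pool.Agent.H248.UB.Fr
import Pool.Agent.H248.UB.VfL
set_option autoImplicit false
open Matrix MeasureTheory Set Metric Filter Topology
open scoped ENNReal ContDiff

namespace Pool.Agent.H248.UB
open Pool.Agent.Helper82.OS








theorem approx {m : ℕ} (hm : 1 ≤ m) (η : ℝ) (h : 0 < η) :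
    ∃ V : E (2 * m + 2) → E (2 * m + 2), UT V ∧
      ∫⁻ x : sphere (0 : E (2 * m + 2)) 1, ENNReal.ofReal (dens V (x : E (2 * m + 2))) ∂(sg (2 * m + 2))
        ≤ (∫⁻ x : sphere (0 : E (2 * m + 2)) 1,
            ENNReal.ofReal (dens (PP (EuclideanSpace.single 0 1) (EuclideanSpace.single 1 1))
              (x : E (2 * m + 2))) ∂(sg (2 * m + 2))) + ENNReal.ofReal η := by
  obtain ⟨J, hJ⟩ := fr_exists m
  obtain ⟨K, hK0, hK⟩ := fderiv_bd hJ
  obtain ⟨C, hC0, hC⟩ := cap_meas (2 * m + 1) (by omega)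
  have hC' : ∀ ε : ℝ, 0 < ε → ε < 1 →
    (sg (2 * m + 2)) {x : sphere (0 : E (2 * m + 2)) 1 |
      ‖pa (EuclideanSpace.single (0 : Fin (2 * m + 2)) (1 : ℝ)) (x : E (2 * m + 2))‖ ≤ ε}
      ≤ ENNReal.ofReal (C * ε ^ (2 * m + 1)) := hC
  obtain ⟨K1, hK1⟩ : ∃ K1 : ℝ, K1 = 1 + 3 * ((2 * m + 2 : ℕ) : ℝ) * K ^ 2 := ⟨_, rfl⟩
  have hK1p : 1 ≤ K1 := by
    rw [hK1]
    have : 0 ≤ 3 * ((2 * m + 2 : ℕ) : ℝ) * K ^ 2 := by positivity
    linarith
  have hB : 0 ≤ 3 * K1 ^ m * C := by positivity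
  obtain ⟨B, hBdef⟩ : ∃ B : ℝ, B = 3 * K1 ^ m * C := ⟨_, rfl⟩
  rw [← hBdef] at hB
  obtain ⟨ε, hεdef⟩ : ∃ ε : ℝ, ε = min (1 / 4) (η / (B + 1)) := ⟨_, rfl⟩
  have hε : 0 < ε := by
    rw [hεdef]
    exact lt_min (by norm_num) (by positivity)
  have hε4 : ε ≤ 1 / 4 := by rw [hεdef]; exact min_le_left _ _
  have hεη : B * ε ≤ η := by
    have h1 : ε ≤ η / (B + 1) := by rw [hεdef]; exact min_le_right _ _
    rw [le_div_iff₀ (by positivity)] at h1
    nlinarith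
  refine ⟨Vf (EuclideanSpace.single 0 1) (EuclideanSpace.single 1 1) J ε,
    Vf_UT hJ ε hε (by linarith), ?_⟩
  obtain ⟨S, hS⟩ : ∃ S : Set (sphere (0 : E (2 * m + 2)) 1), S = {x : sphere (0 : E (2 * m + 2)) 1 |
      ‖pa (EuclideanSpace.single (0 : Fin (2 * m + 2)) (1 : ℝ)) (x : E (2 * m + 2))‖ ≤ ε} := ⟨_, rfl⟩
  have hSm : MeasurableSet S := by
    rw [hS]
    apply IsClosed.measurableSet
    apply isClosed_le _ continuous_const
    unfold pa
    fun_prop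
  have hSμ : (sg (2 * m + 2)) S ≤ ENNReal.ofReal (C * ε ^ (2 * m + 1)) := by
    rw [hS]; exact hC' ε hε (by linarith)
  rw [← lintegral_add_compl _ hSm, add_comm]
  apply add_le_add
  · calc ∫⁻ x in Sᶜ, ENNReal.ofReal (dens (Vf (EuclideanSpace.single 0 1)
          (EuclideanSpace.single 1 1) J ε) (x : E (2 * m + 2))) ∂(sg (2 * m + 2))
        = ∫⁻ x in Sᶜ, ENNReal.ofReal (dens (PP (EuclideanSpace.single 0 1)
          (EuclideanSpace.single 1 1)) (x : E (2 * m + 2))) ∂(sg (2 * m + 2)) := by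
          apply setLIntegral_congr_fun hSm.compl
          intro x hx
          have hx1 : ‖(x : E (2 * m + 2))‖ = 1 := by simp
          have hx2 : ε < ‖pa (EuclideanSpace.single (0 : Fin (2 * m + 2)) (1 : ℝ)) (x : E (2 * m + 2))‖ := by
            rw [hS] at hx
            simpa using hx
          simp only [dens_Vf hJ ε hε (by linarith) (x : E (2 * m + 2)) hx1 hx2]
      _ ≤ _ := setLIntegral_le_lintegral _ _
  · have hbd : ∀ x ∈ S, ENNReal.ofReal (dens (Vf (EuclideanSpace.single 0 1)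
          (EuclideanSpace.single 1 1) J ε) (x : E (2 * m + 2))) ≤
          ENNReal.ofReal (3 * K1 ^ m / ε ^ (2 * m)) := by
      intro x hx
      apply ENNReal.ofReal_le_ofReal
      have hx1 : ‖(x : E (2 * m + 2))‖ = 1 := by simp
      have hx2 : ‖pa (EuclideanSpace.single (0 : Fin (2 * m + 2)) (1 : ℝ)) (x : E (2 * m + 2))‖ ≤ ε := by
        rw [hS] at hx
        exact hx
      have h1 := dens_bd _ (Vf_UT hJ ε hε (by linarith)) (x : E (2 * m + 2)) hx1 (K / ε)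
        (hK ε hε (by linarith) _ hx1 hx2)
      refine h1.trans ?_
      have h2 : 1 + 3 * ((2 * m + 2 : ℕ) : ℝ) * (K / ε) ^ 2 ≤ K1 / ε ^ 2 := by
        rw [hK1, add_div]
        have e1 : 1 ≤ 1 / ε ^ 2 := by
          rw [le_div_iff₀ (by positivity)]
          nlinarith
        have e2 : 3 * ((2 * m + 2 : ℕ) : ℝ) * (K / ε) ^ 2 = 3 * ((2 * m + 2 : ℕ) : ℝ) * K ^ 2 / ε ^ 2 := by
          rw [div_pow]; ring
        rw [e2]
        linarith
      have h3 : (1 + 3 * ((2 * m + 2 : ℕ) : ℝ) * (K / ε) ^ 2) ^ m ≤ (K1 / ε ^ 2) ^ m :=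
        pow_le_pow_left₀ (by positivity) h2 m
      have h4 : (K1 / ε ^ 2) ^ m = K1 ^ m / ε ^ (2 * m) := by
        rw [div_pow, ← pow_mul]
      rw [h4] at h3
      calc _ ≤ 3 * (K1 ^ m / ε ^ (2 * m)) := by linarith
        _ = _ := by ring
    calc ∫⁻ x in S, ENNReal.ofReal (dens (Vf (EuclideanSpace.single 0 1)
          (EuclideanSpace.single 1 1) J ε) (x : E (2 * m + 2))) ∂(sg (2 * m + 2))
        ≤ ∫⁻ x in S, ENNReal.ofReal (3 * K1 ^ m / ε ^ (2 * m)) ∂(sg (2 * m + 2)) :=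
          setLIntegral_mono' hSm hbd
      _ = ENNReal.ofReal (3 * K1 ^ m / ε ^ (2 * m)) * (sg (2 * m + 2)) S := by
          rw [setLIntegral_const]
      _ ≤ ENNReal.ofReal (3 * K1 ^ m / ε ^ (2 * m)) * ENNReal.ofReal (C * ε ^ (2 * m + 1)) := by
          gcongr
      _ = ENNReal.ofReal (B * ε) := by
          rw [← ENNReal.ofReal_mul (by positivity)]
          congr 1
          rw [hBdef]
          field_simp
          ring
      _ ≤ ENNReal.ofReal η := ENNReal.ofReal_le_ofReal hεη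

end Pool.Agent.H248.UB
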